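import Pool.Agent.V11165.QF.Main

set_option autoImplicit false

namespace Pool.Agent.Results.MP_008206_co.ExactForLargeN

open Finset

/-- `A` is strongly `Q`-forcing: every one entry `(x, y)` of `A` lies in a submatrix of `A`, with
rows `r 0 < r 1 < ...` and columns `c 0 < c 1 < ...`, that is equal to `Q` (`true` is the entry
one, `false` the entry zero). -/
def Forcing {k n : ℕ} (Q : Fin k → Fin k → Bool) (A : Fin n → Fin n → Bool) : Prop :=
  ∀ x y, A x y = true → ∃ r c : Fin k → Fin n, StrictMono r ∧ StrictMono c ∧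
    (∀ i j, A (r i) (c j) = Q i j) ∧ (∃ i, r i = x) ∧ (∃ j, c j = y)

/-- The number of ones of `A`. -/
def count {n : ℕ} (A : Fin n → Fin n → Bool) : ℕ :=
  (univ.filter fun p : Fin n × Fin n => A p.1 p.2 = true).card

/-- The permutation matrix of `σ`. -/
def permMat {k : ℕ} (σ : Equiv.Perm (Fin k)) : Fin k → Fin k → Bool := fun i j => decide (σ i = j)

/-- The identity matrix `I_k`. -/
def idMat (k : ℕ) : Fin k → Fin k → Bool := fun i j => decide (i = j)

/-- The conjectured value `n² - (2k - 3) n + k² - 2k` of `M(n, I_k)`. -/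
def value (k n : ℕ) : ℤ := (n : ℤ) ^ 2 - (2 * k - 3) * n + (k ^ 2 - 2 * k)

/-- For `n ≥ k ≥ 3`:
(1) `M(n, I_k)` is the conjectured value if `k ≤ 4`, or `n ≥ k²/2`, or `n ≤ k + 3`;
(2) under the same condition `M(n, P)` is at most the conjectured value for every `k × k`
permutation matrix `P`;
(3) for all `n ≥ k` and every `k × k` permutation matrix `P`, `M(n, P)` is at most the conjectured
value plus `(k - 3)²/4`. -/
theorem result (k n : ℕ) (hk : 3 ≤ k) (hn : k ≤ n) :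
    (k ≤ 4 ∨ k ^ 2 ≤ 2 * n ∨ n ≤ k + 3 →
      IsGreatest {m : ℤ | ∃ A : Fin n → Fin n → Bool, Forcing (idMat k) A ∧ (count A : ℤ) = m}
        (value k n)) ∧
    (k ≤ 4 ∨ k ^ 2 ≤ 2 * n ∨ n ≤ k + 3 → ∀ (σ : Equiv.Perm (Fin k)) (A : Fin n → Fin n → Bool),
      Forcing (permMat σ) A → (count A : ℤ) ≤ value k n) ∧
    (∀ (σ : Equiv.Perm (Fin k)) (A : Fin n → Fin n → Bool),
      Forcing (permMat σ) A → 4 * ((count A : ℤ) - value k n) ≤ ((k : ℤ) - 3) ^ 2) := by
  have hcond : k ≤ 4 ∨ k ^ 2 ≤ 2 * n ∨ n ≤ k + 3 → k ^ 2 ≤ 2 * n ∨ n ≤ k + 3 := by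
    rintro (h | h | h)
    · interval_cases k <;> omega
    · exact Or.inl h
    · exact Or.inr h
  have h2 : k ≤ 4 ∨ k ^ 2 ≤ 2 * n ∨ n ≤ k + 3 → ∀ (σ : Equiv.Perm (Fin k))
      (A : Fin n → Fin n → Bool), Forcing (permMat σ) A → (count A : ℤ) ≤ value k n :=
    fun hc σ A hA => (Pool.Agent.V11165.QF.upper (by omega) hn σ A hA).1 (hcond hc)
  refine ⟨fun hc => ⟨⟨Pool.Agent.V11165.QF.S k n,
    Pool.Agent.V11165.QF.S_forcing (by omega) hn, Pool.Agent.V11165.QF.S_count (by omega) hn⟩, ?_⟩,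
    h2, fun σ A hA => (Pool.Agent.V11165.QF.upper (by omega) hn σ A hA).2⟩
  rintro m ⟨A, hA, rfl⟩
  exact h2 hc (Equiv.refl _) A hA

end Pool.Agent.Results.MP_008206_co.ExactForLargeN
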